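import Pool.Agent.Helper72K9.AB.St

/-! Leaves CA and CB of the project AB (MP_d69e80_al): congruences for conjugate polynomials. -/

set_option autoImplicit false

open NumberField Module Polynomial IntermediateField

namespace Pool.Agent.Helper42K9.AB

open Pool.Agent.Helper72K9.AB

/-- polynomials over a commutative ring in which `p` is zero -/
lemma frob_char {R : Type*} [CommRing R] (p a : ℕ) (hp : p.Prime) (hc : (p : R) = 0) (f g : R[X])
    (hg : ∀ k, g.coeff k = f.coeff k ^ p ^ a) :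
    f ^ p ^ a = expand R (p ^ a) g := by
  have : Fact p.Prime := ⟨hp⟩
  rcases subsingleton_or_nontrivial R with h | h
  · apply Subsingleton.elim
  · have : CharP R p := (CharP.charP_iff_prime_eq_zero hp).2 hc
    have : ExpChar R p := ExpChar.prime hp
    rw [← map_iterateFrobenius_expand p f a, map_expand]
    congr 1
    ext k
    rw [coeff_map, iterateFrobenius_def, hg]

/-- a polynomial with coefficients in an ideal has its values in the ideal -/
lemma aeval_mem {A B : Type*} [CommRing A] [CommRing B] [Algebra A B] (I : Ideal A) (g : A[X])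
    (hg : ∀ k, g.coeff k ∈ I) (z : B) : aeval z g ∈ I.map (algebraMap A B) := by
  rw [aeval_eq_sum_range]
  refine Ideal.sum_mem _ fun k _ => ?_
  rw [Algebra.smul_def]
  exact Ideal.mul_mem_right _ _ (Ideal.mem_map_of_mem _ (hg k))

theorem ca_gen {A B : Type*} [CommRing A] [CommRing B] [Algebra A B] (p a : ℕ) (φ : A →+* A) (𝔞 : Ideal A)
    (f : A[X]) (z : B) (hp : p.Prime) (hpa : (p : A) ∈ 𝔞) (hφ : ∀ x : A, x ^ p ^ a - φ x ∈ 𝔞)
    (hz : aeval z f = 0) : aeval (z ^ p ^ a) (f.map φ) ∈ 𝔞.map (algebraMap A B) := by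
  have h1 : (f.map (Ideal.Quotient.mk 𝔞)) ^ p ^ a =
      expand (A ⧸ 𝔞) (p ^ a) ((f.map φ).map (Ideal.Quotient.mk 𝔞)) := by
    apply frob_char p a hp
    · rw [← map_natCast (Ideal.Quotient.mk 𝔞), Ideal.Quotient.eq_zero_iff_mem]
      exact hpa
    · intro k
      rw [coeff_map, coeff_map, coeff_map, ← map_pow, eq_comm, Ideal.Quotient.eq]
      exact hφ _
  have h2 : ∀ k, (f ^ p ^ a - expand A (p ^ a) (f.map φ)).coeff k ∈ 𝔞 := by
    intro k
    rw [← Ideal.Quotient.eq_zero_iff_mem, ← coeff_map, Polynomial.map_sub, Polynomial.map_pow, map_expand, h1,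
      sub_self, coeff_zero]
  have h3 := aeval_mem 𝔞 _ h2 z
  rw [map_sub, map_pow, hz, zero_pow (pow_ne_zero _ hp.ne_zero), expand_aeval, zero_sub] at h3
  simpa using (Ideal.neg_mem_iff _).1 h3

theorem ca : S_CA := by
  intro L N _ _ _ _ _ p a φ 𝔞 f z hp hpa hφ hz
  exact ca_gen p a φ 𝔞 f z hp hpa hφ hz

/-- powers of differences modulo `p` -/
lemma prod_sub_pow {B : Type*} [CommRing B] (p k D : ℕ) (hp : p.Prime) (z : B) (y : Fin D → B) (I : Ideal B)
    (hI : (p : B) ∈ I) : (∏ i, (z ^ p ^ k - y i ^ p ^ k)) - (∏ i, (z - y i)) ^ p ^ k ∈ I := by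
  have : Fact p.Prime := ⟨hp⟩
  rw [← Ideal.Quotient.eq_zero_iff_mem, map_sub, sub_eq_zero, map_prod, map_pow, map_prod, ← Finset.prod_pow]
  apply Finset.prod_congr rfl
  intro i _
  rw [map_sub, map_sub, map_pow, map_pow]
  rcases subsingleton_or_nontrivial (B ⧸ I) with h | h
  · apply Subsingleton.elim
  · have : CharP (B ⧸ I) p := by
      refine (CharP.charP_iff_prime_eq_zero hp).2 ?_
      rw [← map_natCast (Ideal.Quotient.mk I), Ideal.Quotient.eq_zero_iff_mem]
      exact hI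
    rw [sub_pow_char_pow]

theorem cb_gen {A B : Type*} [CommRing A] [CommRing B] [Algebra A B] (p k e D : ℕ) (σ : A →+* A)
    (𝔞 J : Ideal A) (f : A[X]) (z : B) (y : Fin D → B) (hp : p.Prime) (hpa : (p : A) ∈ 𝔞)
    (hσ : ∀ x : A, σ x - x ∈ J) (hJ : J ^ e ≤ 𝔞) (he : e ≤ p ^ k) (hz : aeval z f = 0)
    (hy : (f.map σ).map (algebraMap A B) = ∏ i, (X - C (y i))) :
    ∏ i, (z ^ p ^ k - y i ^ p ^ k) ∈ 𝔞.map (algebraMap A B) := by
  have h1 : ∏ i, (z - y i) ∈ J.map (algebraMap A B) := by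
    have h2 : ∀ k, (f.map σ - f).coeff k ∈ J := by
      intro k
      rw [coeff_sub, coeff_map]
      exact hσ _
    have h3 := aeval_mem J _ h2 z
    rw [map_sub, hz, sub_zero, aeval_def, ← eval_map, hy, eval_prod] at h3
    simpa using h3
  have h4 := prod_sub_pow p k D hp z y (𝔞.map (algebraMap A B)) (by
    have := Ideal.mem_map_of_mem (algebraMap A B) hpa
    rwa [map_natCast] at this)
  have h5 : (∏ i, (z - y i)) ^ p ^ k ∈ 𝔞.map (algebraMap A B) := by
    have h6 : (∏ i, (z - y i)) ^ p ^ k ∈ (J.map (algebraMap A B)) ^ p ^ k := Ideal.pow_mem_pow h1 _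
    have h7 : (J.map (algebraMap A B)) ^ p ^ k ≤ (J.map (algebraMap A B)) ^ e := Ideal.pow_le_pow_right he
    have h8 : (J.map (algebraMap A B)) ^ e ≤ 𝔞.map (algebraMap A B) := by
      rw [← Ideal.map_pow]
      exact Ideal.map_mono hJ
    exact h8 (h7 h6)
  have h9 := Ideal.add_mem _ h4 h5
  simpa using h9

theorem cb : S_CB := by
  intro L N _ _ _ _ _ p k e D σ 𝔞 J f z y hp hpa hσ hJ he hz hy
  exact cb_gen p k e D σ 𝔞 J f z y hp hpa hσ hJ he hz hy

end Pool.Agent.Helper42K9.AB
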