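import Pool.Agent.Helper72K9.AB.St

/-! Leaves PFRO and PINE of the project AB (MP_d69e80_al): Frobenius and inertia in abelian extensions of number fields. -/

set_option autoImplicit false

open NumberField Module Polynomial IntermediateField

namespace Pool.Agent.Helper42K9.AB

open Pool.Agent.Helper72K9.AB
open scoped Pointwise

lemma exists_rad {A B : Type*} [CommRing A] [IsDedekindDomain A] [CommRing B] [IsDedekindDomain B] [Algebra A B]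
    [Algebra.IsIntegral A B] [Module.IsTorsionFree A B] (p : Ideal A) [p.IsMaximal] (hp : p ≠ ⊥) (e : ℕ)
    (he : ∀ Q : Ideal B, Q.IsPrime → Q.LiesOver p → Q.ramificationIdx A = e) :
    ∃ J : Ideal B, (∀ x, (∀ Q : Ideal B, Q.IsPrime → Q.LiesOver p → x ∈ Q) → x ∈ J) ∧
      J ^ e ≤ p.map (algebraMap A B) := by
  classical
  have h1 := Ideal.map_algebraMap_eq_finsetProd_pow (R := B) (p := p) hp
  refine ⟨∏ P ∈ (p.primesOver B).toFinset, P, ?_, ?_⟩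
  · intro x hx
    have h2 := IsDedekindDomain.inf_pow_eq_prod_of_prime (p.primesOver B).toFinset (fun P : Ideal B => P)
      (fun _ => 1) (by
        intro Q hQ
        rw [Set.mem_toFinset] at hQ
        have := hQ.1
        have := hQ.2
        exact Ideal.prime_of_isPrime (Ideal.ne_bot_of_liesOver_of_ne_bot hp Q) hQ.1) (fun i _ j _ h => h)
    simp only [pow_one] at h2
    rw [← h2, Submodule.mem_finsetInf]
    intro Q hQ
    rw [Set.mem_toFinset] at hQ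
    exact hx Q hQ.1 hQ.2
  · rw [h1, ← Finset.prod_pow]
    apply le_of_eq
    apply Finset.prod_congr rfl
    intro Q hQ
    rw [Set.mem_toFinset] at hQ
    rw [he Q hQ.1 hQ.2]

theorem pfro : S_PFRO := by
  intro K L _ _ _ _ _ _ P hP hP0 hram
  have := hP
  have hPm : P.IsMaximal := hP.isMaximal hP0
  obtain ⟨Q, hQ1, hQ2⟩ := Ideal.exists_maximal_ideal_liesOver_of_isIntegral (S := 𝓞 L) P
  have hQb : Q ≠ ⊥ := Ideal.ne_bot_of_liesOver_of_ne_bot hP0 Q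
  have hQp : Q.IsPrime := hQ1.isPrime
  have hfin : Finite (𝓞 L ⧸ Q) := Ideal.finiteQuotientOfFreeOfNeBot Q hQb
  obtain ⟨φ, hφ⟩ := IsArithFrobAt.exists_of_isInvariant (𝓞 K) Gal(L/K) Q
  obtain ⟨J, hJ1, hJ2⟩ := exists_rad (B := 𝓞 L) P hP0 1 hram
  rw [pow_one] at hJ2
  refine ⟨φ, fun x => hJ2 (hJ1 _ ?_)⟩
  intro Q' hQ'1 hQ'2
  obtain ⟨τ, hτ⟩ := Ideal.exists_smul_eq_of_isGaloisGroup P Q Q' Gal(L/K)
  have h3 := hφ.conj τ
  rw [hτ] at h3
  have h4 : τ * φ * τ⁻¹ = φ := by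
    rw [mul_comm' τ φ, mul_assoc, mul_inv_cancel, mul_one]
  rw [h4] at h3
  have h5 := h3 x
  rw [← Ideal.neg_mem_iff, neg_sub] at h5
  have h6 : Q'.under (𝓞 K) = P := hQ'2.over.symm
  rw [h6] at h5
  exact h5

theorem pine : S_PINE := by
  intro K L _ _ _ _ _ _ P hP hP0
  have := hP
  have hPm : P.IsMaximal := hP.isMaximal hP0
  have hPf : Finite (𝓞 K ⧸ P) := Ideal.finiteQuotientOfFreeOfNeBot P hP0
  obtain ⟨Q, hQ1, hQ2⟩ := Ideal.exists_maximal_ideal_liesOver_of_isIntegral (S := 𝓞 L) P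
  have hQb : Q ≠ ⊥ := Ideal.ne_bot_of_liesOver_of_ne_bot hP0 Q
  have hQp : Q.IsPrime := hQ1.isPrime
  have hall : ∀ Q' : Ideal (𝓞 L), Q'.IsPrime → Q'.LiesOver P → ∀ σ ∈ Q.inertia Gal(L/K), σ ∈ Q'.inertia Gal(L/K) := by
    intro Q' h1 h2 σ hσ
    obtain ⟨τ, hτ⟩ := Ideal.exists_smul_eq_of_isGaloisGroup P Q Q' Gal(L/K)
    subst hτ
    intro x
    have h3 : σ • x - x = τ • (σ • (τ⁻¹ • x) - τ⁻¹ • x) := by
      rw [smul_sub, smul_inv_smul, ← mul_smul, ← mul_smul, mul_comm' τ σ, mul_assoc, mul_inv_cancel, mul_one]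
    rw [h3]
    exact Ideal.smul_mem_pointwise_smul _ _ _ (hσ _)
  have hcard : Nat.card (Q.inertia Gal(L/K)) = P.ramificationIdxIn (𝓞 L) := Ideal.card_inertia_eq_ramificationIdxIn P Q
  have he : ∀ Q' : Ideal (𝓞 L), Q'.IsPrime → Q'.LiesOver P → Q'.ramificationIdx (𝓞 K) = Nat.card (Q.inertia Gal(L/K)) := by
    intro Q' h1 h2
    rw [hcard, Ideal.ramificationIdxIn_eq_ramificationIdx P Q' Gal(L/K)]
  obtain ⟨J, hJ1, hJ2⟩ := exists_rad (B := 𝓞 L) P hP0 _ he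
  refine ⟨Q.inertia Gal(L/K), J, ?_, hJ2, ?_⟩
  · intro σ hσ x
    apply hJ1
    intro Q' h1 h2
    exact hall Q' h1 h2 σ hσ x
  · intro 𝔭 h𝔭 h𝔭P
    have h𝔭0 : 𝔭 ≠ ⊥ := Ideal.ne_bot_of_liesOver_of_ne_bot hP0 𝔭
    have h𝔭m : 𝔭.IsMaximal := h𝔭.isMaximal h𝔭0
    have h𝔭f : Finite (𝓞 (fixedField (Q.inertia Gal(L/K))) ⧸ 𝔭) := Ideal.finiteQuotientOfFreeOfNeBot 𝔭 h𝔭0
    obtain ⟨Q', hQ'1, hQ'2⟩ := Ideal.exists_maximal_ideal_liesOver_of_isIntegral (S := 𝓞 L) 𝔭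
    have hQ'p : Q'.IsPrime := hQ'1.isPrime
    have hQ'P : Q'.LiesOver P := Ideal.LiesOver.trans Q' 𝔭 P
    have hG : IsGaloisGroup (Q.inertia Gal(L/K)) (fixedField (Q.inertia Gal(L/K))) L :=
      IsGaloisGroup.subgroup Gal(L/K) K L (Q.inertia Gal(L/K))
    have hG2 : IsGaloisGroup (Q.inertia Gal(L/K)) (𝓞 (fixedField (Q.inertia Gal(L/K)))) (𝓞 L) :=
      IsGaloisGroup.of_isFractionRing _ _ _ (fixedField (Q.inertia Gal(L/K))) L
    have h5 : Nat.card (Q'.inertia (Q.inertia Gal(L/K))) = 𝔭.ramificationIdxIn (𝓞 L) :=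
      Ideal.card_inertia_eq_ramificationIdxIn 𝔭 Q'
    have h6 : Q'.inertia (Q.inertia Gal(L/K)) = ⊤ := by
      rw [eq_top_iff]
      intro σ _ x
      exact hall Q' hQ'p hQ'P σ.1 σ.2 x
    rw [h6, Subgroup.card_top, Ideal.ramificationIdxIn_eq_ramificationIdx 𝔭 Q' (Q.inertia Gal(L/K))] at h5
    have h7 := Ideal.ramificationIdx_tower (R := 𝓞 K) 𝔭 Q'
    rw [he Q' hQ'p hQ'P, ← h5] at h7
    have h8 : 0 < Nat.card (Q.inertia Gal(L/K)) := Nat.card_pos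
    exact Nat.eq_of_mul_eq_mul_right h8 (by rw [one_mul]; exact h7.symm)

end Pool.Agent.Helper42K9.AB

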